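import Mathlib
import Pool.Agent.D0H38.TD.Stm6
import Pool.Agent.D0H2.TD.Dec2

/-!
# Project TE, module BLK2 (helper2): blocks with names, without losses
-/

set_option autoImplicit false

namespace Pool.Agent.D0H2.TE

open Pool.Agent.D0H38.TD Finset

/-- The pieces get different names one after the other. -/
theorem naming {V : Type} [DecidableEq V] (s K : ℕ) (A0 : Finset (Fin K))
    (forb : V → Finset (Fin K)) (hforb : ∀ w, (forb w).card ≤ 2) (Q : Finset (Finset V)) :
    (∀ P ∈ Q, P.card ≤ s) → (∀ P ∈ Q, ∀ P' ∈ Q, P ≠ P' → Disjoint P P') →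
    A0.card + Q.card + 2 * s ≤ K →
    ∃ (A : Finset (Fin K)) (I : Fin K → Finset V), Disjoint A A0 ∧ A.card ≤ Q.card ∧
      (∀ a, a ∉ A → I a = ∅) ∧ (∀ a ∈ A, I a ∈ Q) ∧ (∀ a, ∀ w ∈ I a, a ∉ forb w) ∧
      (∀ a b, a ≠ b → Disjoint (I a) (I b)) ∧ ∀ P ∈ Q, ∀ v ∈ P, ∃ a, v ∈ I a := by
  induction Q using Finset.induction_on with
  | empty =>
    intro _ _ _
    exact ⟨∅, fun _ => ∅, by simp, by simp, fun _ _ => rfl, by simp, by simp, by simp, by simp⟩
  | insert P Q hPQ ih =>
    intro hs hdis hK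
    rw [card_insert_of_notMem hPQ] at hK
    obtain ⟨A, I, h1, h2, h3, h4, h5, h6, h7⟩ := ih
      (fun P' hP' => hs P' (mem_insert_of_mem hP'))
      (fun P₁ hP₁ P₂ hP₂ => hdis P₁ (mem_insert_of_mem hP₁) P₂ (mem_insert_of_mem hP₂)) (by omega)
    have hc1 : (P.biUnion forb).card ≤ 2 * s := by
      refine (card_biUnion_le_card_mul _ _ 2 fun w _ => hforb w).trans ?_
      have := hs P (mem_insert_self _ _)
      omega
    have hc2 : (A0 ∪ A ∪ P.biUnion forb).card < (univ : Finset (Fin K)).card := by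
      rw [card_univ, Fintype.card_fin]
      have e1 := card_union_le (A0 ∪ A) (P.biUnion forb)
      have e2 := card_union_le A0 A
      omega
    obtain ⟨a, -, ha⟩ := exists_mem_notMem_of_card_lt_card hc2
    rw [mem_union, mem_union, not_or, not_or] at ha
    obtain ⟨⟨ha0, haA⟩, haP⟩ := ha
    have hPI : ∀ b, Disjoint P (I b) := by
      intro b
      by_cases hb : b ∈ A
      · refine hdis P (mem_insert_self _ _) (I b) (mem_insert_of_mem (h4 b hb)) ?_
        intro h
        exact hPQ (h ▸ h4 b hb)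
      · rw [h3 b hb]; exact disjoint_empty_right _
    refine ⟨insert a A, Function.update I a P, ?_, ?_, ?_, ?_, ?_, ?_, ?_⟩
    · rw [disjoint_insert_left]
      exact ⟨ha0, h1⟩
    · rw [card_insert_of_notMem haA, card_insert_of_notMem hPQ]
      omega
    · intro b hb
      rw [mem_insert, not_or] at hb
      rw [Function.update_of_ne hb.1]
      exact h3 b hb.2
    · intro b hb
      by_cases hba : b = a
      · subst hba
        rw [Function.update_self]
        exact mem_insert_self _ _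
      · rw [Function.update_of_ne hba]
        exact mem_insert_of_mem (h4 b ((mem_insert.mp hb).resolve_left hba))
    · intro b w hw
      by_cases hba : b = a
      · subst hba
        rw [Function.update_self] at hw
        exact fun h => haP (mem_biUnion.mpr ⟨w, hw, h⟩)
      · rw [Function.update_of_ne hba] at hw
        exact h5 b w hw
    · intro x y hxy
      by_cases hx : x = a
      · subst hx
        rw [Function.update_self, Function.update_of_ne hxy.symm]
        exact hPI y
      · by_cases hy : y = a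
        · subst hy
          rw [Function.update_self, Function.update_of_ne hxy]
          exact (hPI x).symm
        · rw [Function.update_of_ne hx, Function.update_of_ne hy]
          exact h6 x y hxy
    · intro P' hP' v hv
      rcases mem_insert.mp hP' with h | h
      · refine ⟨a, ?_⟩
        rw [Function.update_self]
        exact h ▸ hv
      · obtain ⟨b, hb⟩ := h7 P' h v hv
        have hba : b ≠ a := by
          intro e
          rw [e, h3 a haA] at hb
          exact absurd hb (notMem_empty _)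
        exact ⟨b, by rw [Function.update_of_ne hba]; exact hb⟩

theorem t_BLK2 : S_BLK2 := by
  intro V _ _ c s K t par κ Y A0 forb hs hev hforb hK
  let C : Fin c → Finset V := fun i => Y.filter fun v => κ v = i
  have h0 : ∀ i : Fin c, ∃ Q : Finset (Finset V),
      (∀ P ∈ Q, P ⊆ C i ∧ P.card ≤ s ∧ (par → Even (t + P.card))) ∧
      (∀ P ∈ Q, ∀ P' ∈ Q, P ≠ P' → Disjoint P P') ∧
      Q.card ≤ (C i).card / s + 1 ∧ (C i \ Q.biUnion id).card ≤ 1 := by
    intro i
    by_cases hp : par
    · obtain ⟨Q, h1, h2, h3, h4⟩ :=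
        Pool.Agent.D0H2.TD.Dec.one t s hs (by rwa [add_comm]) _ (C i) rfl
      exact ⟨Q, fun P hP => ⟨(h1 P hP).1, (h1 P hP).2.1, fun _ => (h1 P hP).2.2⟩, h2, h3, h4⟩
    · obtain ⟨Q, h1, h2, h3, h4⟩ := Pool.Agent.D0H2.TD.Dec2.one' s hs _ (C i) rfl
      refine ⟨Q, fun P hP => ⟨(h1 P hP).1, (h1 P hP).2, fun h => absurd h hp⟩, h2, h3, ?_⟩
      have he : C i \ Q.biUnion id = ∅ := by
        rw [sdiff_eq_empty_iff_subset]
        intro v hv
        obtain ⟨P, hP, hvP⟩ := h4 v hv
        exact mem_biUnion.mpr ⟨P, hP, hvP⟩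
      rw [he]
      simp
  choose Q hQ1 hQ2 hQ3 hQ4 using h0
  have hCdis : ∀ i j, i ≠ j → Disjoint (C i) (C j) := fun i j hij =>
    disjoint_left.mpr fun x hx hx' =>
      hij ((mem_filter.mp hx).2.symm.trans (mem_filter.mp hx').2)
  have hsum : ∑ i, (C i).card = Y.card :=
    (card_eq_sum_card_fiberwise (f := κ) (s := Y) (t := univ) (fun _ _ => by simp)).symm
  have hcard : (univ.biUnion Q).card ≤ Fintype.card V / s + c := by
    have h1 : (univ.biUnion Q).card ≤ ∑ i, ((C i).card / s + 1) :=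
      card_biUnion_le.trans (sum_le_sum fun i _ => hQ3 i)
    have h2 : ∑ i, (C i).card / s ≤ Fintype.card V / s := by
      rw [Nat.le_div_iff_mul_le (by omega), sum_mul]
      refine (sum_le_sum fun i _ => Nat.div_mul_le_self _ _).trans ?_
      rw [hsum]
      exact card_le_univ _
    rw [sum_add_distrib] at h1
    simp only [sum_const, card_univ, Fintype.card_fin, smul_eq_mul, mul_one] at h1
    omega
  have hdis : ∀ P ∈ univ.biUnion Q, ∀ P' ∈ univ.biUnion Q, P ≠ P' → Disjoint P P' := by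
    intro P hP P' hP' hne
    obtain ⟨i, -, hP⟩ := mem_biUnion.mp hP
    obtain ⟨j, -, hP'⟩ := mem_biUnion.mp hP'
    by_cases hij : i = j
    · subst hij
      exact hQ2 i P hP P' hP' hne
    · exact disjoint_of_subset_left (hQ1 i P hP).1
        (disjoint_of_subset_right (hQ1 j P' hP').1 (hCdis i j hij))
  have hprop : ∀ P ∈ univ.biUnion Q, P ⊆ Y ∧ P.card ≤ s ∧ (par → Even (t + P.card)) ∧
      ∀ u ∈ P, ∀ v ∈ P, κ u = κ v := by
    intro P hP
    obtain ⟨i, -, hP⟩ := mem_biUnion.mp hP
    obtain ⟨h1, h2, h3⟩ := hQ1 i P hP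
    refine ⟨h1.trans (filter_subset _ _), h2, h3, fun u hu v hv => ?_⟩
    rw [(mem_filter.mp (h1 hu)).2, (mem_filter.mp (h1 hv)).2]
  obtain ⟨A, I, h1, h2, h3, h4, h5, h6, h7⟩ := naming s K A0 forb hforb (univ.biUnion Q)
    (fun P hP => (hprop P hP).2.1) hdis (by omega)
  refine ⟨A, I, h1, h2.trans hcard, h3, fun a => ?_, h6, fun hp a ha => ?_, ?_⟩
  · by_cases ha : a ∈ A
    · obtain ⟨g1, g2, g3, g4⟩ := hprop _ (h4 a ha)
      exact ⟨g1, g2, h5 a, g4⟩
    · rw [h3 a ha]
      simp
  · rw [add_comm]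
    exact (hprop _ (h4 a ha)).2.2.1 hp
  · have hsub : {w | w ∈ Y ∧ ∀ a, w ∉ I a} ⊆
        (↑(univ.biUnion fun i => C i \ (Q i).biUnion id) : Set V) := by
      rintro v ⟨hvL, hv⟩
      rw [mem_coe, mem_biUnion]
      refine ⟨κ v, mem_univ _, mem_sdiff.mpr ⟨mem_filter.mpr ⟨hvL, rfl⟩, fun h => ?_⟩⟩
      obtain ⟨P, hP, hvP⟩ := mem_biUnion.mp h
      obtain ⟨a, ha⟩ := h7 P (mem_biUnion.mpr ⟨_, mem_univ _, hP⟩) v hvP
      exact hv a ha
    refine (Set.ncard_le_ncard hsub (finite_toSet _)).trans ?_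
    rw [Set.ncard_coe_finset]
    refine card_biUnion_le.trans ((sum_le_sum fun i _ => hQ4 i).trans ?_)
    simp

end Pool.Agent.D0H2.TE
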