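import Mathlib
import Pool.Agent.D0H38.TD.Stm6

/-!
# Project TE, module CNT2 (helper2)
-/

set_option autoImplicit false

namespace Pool.Agent.D0H2.TE

open Pool.Agent.D0H38.TD Finset

theorem t_CNT2 : S_CNT2 := by
  intro K N ω h
  by_contra hc
  push Not at hc
  let S : Finset (Fin K) := univ.filter fun a => N < 4 * ω a
  have hS : {a | N < 4 * ω a} = (S : Set (Fin K)) := by
    ext a; simp [S]
  rw [hS, Set.ncard_coe_finset] at hc
  have h1 : ∑ a ∈ S, (N + 1) ≤ ∑ a ∈ S, 4 * ω a := sum_le_sum fun a ha => (mem_filter.mp ha).2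
  have h2 : ∑ a ∈ S, 4 * ω a ≤ 4 * ∑ a, ω a := by
    rw [← mul_sum]
    exact Nat.mul_le_mul_left _ (sum_le_sum_of_subset (subset_univ _))
  rw [sum_const, smul_eq_mul] at h1
  nlinarith

end Pool.Agent.D0H2.TE
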