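import Mathlib
import Pool.Agent.D0H38.TD.Stm6

/-!
# Project TE, module SPC2 (helper2)
-/

set_option autoImplicit false

namespace Pool.Agent.D0H2.TE

open Pool.Agent.D0H38.TD Finset

/-- Different representatives one after the other. -/
theorem reps {V : Type} [DecidableEq V] [Nonempty V] (K : ℕ) (ok : Fin K → Finset V)
    (T : Finset (Fin K)) : T.card ≤ 16 → (∀ a ∈ T, 16 ≤ (ok a).card) →
    ∃ j : Fin K → V, (∀ a ∈ T, j a ∈ ok a) ∧ ∀ a ∈ T, ∀ b ∈ T, a ≠ b → j a ≠ j b := by
  induction T using Finset.induction_on with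
  | empty =>
    intro _ _
    exact ⟨fun _ => Classical.arbitrary V, by simp, by simp⟩
  | insert a T haT ih =>
    intro hc hok
    rw [card_insert_of_notMem haT] at hc
    obtain ⟨j, h1, h2⟩ := ih (by omega) fun b hb => hok b (mem_insert_of_mem hb)
    have hlt : (T.image j).card < (ok a).card := by
      have e1 : (T.image j).card ≤ T.card := card_image_le
      have e2 := hok a (mem_insert_self _ _)
      omega
    obtain ⟨v, hv, hvT⟩ := exists_mem_notMem_of_card_lt_card hlt
    have hne : ∀ b ∈ T, b ≠ a := fun b hb e => haT (e ▸ hb)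
    refine ⟨Function.update j a v, ?_, ?_⟩
    · intro b hb
      rcases mem_insert.mp hb with rfl | hb
      · rw [Function.update_self]; exact hv
      · rw [Function.update_of_ne (hne b hb)]; exact h1 b hb
    · intro b hb b' hb' hbb
      rcases mem_insert.mp hb with rfl | hbT
      · rcases mem_insert.mp hb' with e | hbT'
        · exact absurd e.symm hbb
        · rw [Function.update_self, Function.update_of_ne (hne b' hbT')]
          exact fun e => hvT (mem_image.mpr ⟨b', hbT', e.symm⟩)
      · rcases mem_insert.mp hb' with rfl | hbT'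
        · rw [Function.update_self, Function.update_of_ne (hne b hbT)]
          exact fun e => hvT (mem_image.mpr ⟨b, hbT, e⟩)
        · rw [Function.update_of_ne (hne b hbT), Function.update_of_ne (hne b' hbT')]
          exact h2 b hbT b' hbT' hbb

theorem t_SPC2 : S_SPC2 := by
  intro V _ _ c K κ A X Y forb hA hc hY hforb hX
  let ok : Fin K → Finset V := fun a => Y.filter fun v => a ∉ forb v
  let B : Finset (Fin K) := A.filter fun a => (ok a).card ≤ 15
  have hB : B.card ≤ 2 := by
    by_contra hcon
    push Not at hcon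
    obtain ⟨B', hB'B, hB'⟩ := exists_subset_card_eq (show 3 ≤ B.card from hcon)
    have hu : (B'.biUnion ok).card < Y.card := by
      have e1 : (B'.biUnion ok).card ≤ B'.card * 15 :=
        card_biUnion_le_card_mul _ _ 15 fun a ha => (mem_filter.mp (hB'B ha)).2
      omega
    obtain ⟨v, hvY, hv⟩ := exists_mem_notMem_of_card_lt_card hu
    have hsub : B' ⊆ forb v := by
      intro a ha
      by_contra h
      exact hv (mem_biUnion.mpr ⟨a, ha, mem_filter.mpr ⟨hvY, h⟩⟩)
    have := card_le_card hsub
    have := hforb v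
    omega
  obtain ⟨s₁, hs₁, s₂, hs₂, hne, hκ⟩ :=
    exists_ne_map_eq_of_card_lt_of_maps_to (s := Y) (t := (univ : Finset (Fin c))) (f := κ)
      (by rw [card_univ, Fintype.card_fin]; exact hc) (fun _ _ => by simp)
  have : Nonempty V := ⟨s₁⟩
  obtain ⟨g, hg1, hg2⟩ : ∃ g : Fin K → V, (∀ a, g a = s₁ ∨ g a = s₂) ∧
      ∀ a ∈ B, ∀ b ∈ B, a ≠ b → g a ≠ g b := by
    rcases B.eq_empty_or_nonempty with hB0 | ⟨x, hx⟩
    · exact ⟨fun _ => s₁, fun _ => Or.inl rfl, by simp [hB0]⟩
    · have hle : (B.erase x).card ≤ 1 := by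
        rw [card_erase_of_mem hx]; omega
      refine ⟨fun a => if a = x then s₁ else s₂, fun a => ?_, fun a ha b hb hab => ?_⟩
      · by_cases h : a = x
        · left; simp [h]
        · right; simp [h]
      · by_cases h : a = x
        · have h' : b ≠ x := fun e => hab (h.trans e.symm)
          simp only [h, h', if_true, if_false]
          exact hne
        · by_cases h' : b = x
          · simp only [h, h', if_true, if_false]
            exact hne.symm
          · exact absurd (card_le_one.mp hle a (mem_erase.mpr ⟨h, ha⟩) b (mem_erase.mpr ⟨h', hb⟩)) hab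
  obtain ⟨j, hj1, hj2⟩ := reps K ok (A \ B) ((card_le_card sdiff_subset).trans hA) (by
    intro a ha
    obtain ⟨h1, h2⟩ := mem_sdiff.mp ha
    by_contra h
    exact h2 (mem_filter.mpr ⟨h1, by omega⟩))
  have hgY : ∀ a, g a ∈ Y := fun a => by
    rcases hg1 a with h | h
    · rw [h]; exact hs₁
    · rw [h]; exact hs₂
  have hBA : B ⊆ A := filter_subset _ _
  let J : Fin K → Finset V := fun a => if a ∈ A \ B ∧ ¬ Even (X a).card then {j a} else ∅
  let Z : Fin K → Finset V := fun a =>
    if Even (X a).card then X a else if a ∈ B then (X a).erase (g a) else (X a).erase (j a)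
  have hJ : ∀ a, ∀ w ∈ J a, (a ∈ A \ B ∧ ¬ Even (X a).card) ∧ w = j a := by
    intro a w hw
    by_cases h : a ∈ A \ B ∧ ¬ Even (X a).card
    · refine ⟨h, ?_⟩
      have : J a = {j a} := if_pos h
      rw [this] at hw
      exact mem_singleton.mp hw
    · have : J a = ∅ := if_neg h
      rw [this] at hw
      exact absurd hw (notMem_empty _)
  have hrem : ∀ a ∈ A, ∀ v ∈ (X a \ J a) \ Z a, a ∈ B ∧ v = g a := by
    intro a ha v hv
    obtain ⟨hv1, hv2⟩ := mem_sdiff.mp hv
    obtain ⟨hv3, hv4⟩ := mem_sdiff.mp hv1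
    by_cases he : Even (X a).card
    · have : Z a = X a := if_pos he
      rw [this] at hv2
      exact absurd hv3 hv2
    · by_cases hb : a ∈ B
      · have : Z a = (X a).erase (g a) := by simp only [Z, he, hb, if_true, if_false]
        rw [this] at hv2
        refine ⟨hb, ?_⟩
        by_contra h
        exact hv2 (mem_erase.mpr ⟨h, hv3⟩)
      · have h1 : Z a = (X a).erase (j a) := by simp only [Z, he, hb, if_false]
        have h2 : J a = {j a} := if_pos ⟨mem_sdiff.mpr ⟨ha, hb⟩, he⟩
        rw [h1] at hv2
        rw [h2] at hv4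
        exact absurd (mem_erase.mpr ⟨fun e => hv4 (mem_singleton.mpr e), hv3⟩) hv2
  refine ⟨{s₁, s₂}, J, Z, ?_, ?_, ?_, ?_, ?_, ?_, ?_⟩
  · intro v hv
    rcases mem_insert.mp hv with h | h
    · rw [h]; exact hs₁
    · rw [mem_singleton.mp h]; exact hs₂
  · have key : ∀ u ∈ ({s₁, s₂} : Finset V), κ u = κ s₂ := by
      intro u hu
      rcases mem_insert.mp hu with h | h
      · rw [h]; exact hκ
      · rw [mem_singleton.mp h]
    intro u hu v hv
    rw [key u hu, key v hv]
  · intro a
    refine ⟨fun w hw => ?_, ?_, fun w hw => ?_⟩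
    · obtain ⟨⟨h1, -⟩, rfl⟩ := hJ a w hw
      exact (mem_filter.mp (hj1 a h1)).1
    · rw [card_le_one]
      intro u hu v hv
      rw [(hJ a u hu).2, (hJ a v hv).2]
    · obtain ⟨⟨h1, -⟩, rfl⟩ := hJ a w hw
      exact (mem_filter.mp (hj1 a h1)).2
  · intro a ha
    refine if_neg ?_
    rintro ⟨h, -⟩
    exact ha (mem_sdiff.mp h).1
  · intro a b hab
    rw [disjoint_left]
    intro w hw hw'
    obtain ⟨⟨h1, -⟩, h2⟩ := hJ a w hw
    obtain ⟨⟨h3, -⟩, h4⟩ := hJ b w hw'
    exact hj2 a h1 b h3 hab (h2.symm.trans h4)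
  · intro a ha
    refine ⟨?_, ?_, ?_⟩
    · intro v hv
      by_cases he : Even (X a).card
      · have h1 : Z a = X a := if_pos he
        have h2 : J a = ∅ := if_neg fun h => h.2 he
        rw [h2, sdiff_empty, ← h1]
        exact hv
      · by_cases hb : a ∈ B
        · have h1 : Z a = (X a).erase (g a) := by simp only [Z, he, hb, if_true, if_false]
          have h2 : J a = ∅ := if_neg fun h => (mem_sdiff.mp h.1).2 hb
          rw [h2, sdiff_empty]
          rw [h1] at hv
          exact (mem_erase.mp hv).2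
        · have h1 : Z a = (X a).erase (j a) := by simp only [Z, he, hb, if_false]
          have h2 : J a = {j a} := if_pos ⟨mem_sdiff.mpr ⟨ha, hb⟩, he⟩
          rw [h1] at hv
          rw [h2]
          exact mem_sdiff.mpr ⟨(mem_erase.mp hv).2, fun h => (mem_erase.mp hv).1 (mem_singleton.mp h)⟩
    · by_cases he : Even (X a).card
      · have h1 : Z a = X a := if_pos he
        rw [h1]; exact he
      · have hodd : Odd (X a).card := Nat.not_even_iff_odd.mp he
        obtain ⟨m, hm⟩ := hodd
        by_cases hb : a ∈ B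
        · have h1 : Z a = (X a).erase (g a) := by simp only [Z, he, hb, if_true, if_false]
          rw [h1, card_erase_of_mem (hX a (hgY a)), hm]
          exact ⟨m, by omega⟩
        · have h1 : Z a = (X a).erase (j a) := by simp only [Z, he, hb, if_false]
          have h2 := (mem_filter.mp (hj1 a (mem_sdiff.mpr ⟨ha, hb⟩))).1
          rw [h1, card_erase_of_mem (hX a h2), hm]
          exact ⟨m, by omega⟩
    · intro v hv
      rw [(hrem a ha v hv).2, mem_insert, mem_singleton]
      exact hg1 a
  · intro a ha b hb hab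
    rw [disjoint_left]
    intro v hv hv'
    obtain ⟨h1, h2⟩ := hrem a ha v hv
    obtain ⟨h3, h4⟩ := hrem b hb v hv'
    exact hg2 a h1 b h3 hab (h2.symm.trans h4)

end Pool.Agent.D0H2.TE
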